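import Pool.Agent.W163.P3.CStm

set_option autoImplicit false
set_option maxRecDepth 100000
open Finset

namespace Pool.Agent.W599.P3

open Pool.Agent.W163.P3 Pool.Agent.W163.P3.Cert

def e5 (V : Type) : (Fin 5 → V) ≃ V × V × V × V × V where
  toFun x := (x 0, x 1, x 2, x 3, x 4)
  invFun p := ![p.1, p.2.1, p.2.2.1, p.2.2.2.1, p.2.2.2.2]
  left_inv x := by funext i; fin_cases i <;> rfl
  right_inv p := rfl

theorem conv {V : Type} [Fintype V] (F : V → V → V → V → V → ℕ) :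
    ∑ x : Fin 5 → V, F (x 0) (x 1) (x 2) (x 3) (x 4)
      = ∑ a, ∑ b, ∑ c, ∑ d, ∑ e, F a b c d e := by
  rw [← Equiv.sum_comp (e5 V).symm]
  simp only [Fintype.sum_prod_type]
  rfl

/-- sum over the six orders -/
def S6 {V : Type} (f : V → V → V → ℕ) (a b c : V) : ℕ :=
  f a b c + f a c b + f b a c + f b c a + f c a b + f c b a

theorem sum_S6 {V : Type} [Fintype V] (f : V → V → V → ℕ) :
    ∑ a, ∑ b, ∑ c, S6 f a b c = 6 * ∑ a, ∑ b, ∑ c, f a b c := by
  have e1 : ∑ a, ∑ b, ∑ c, f a c b = ∑ a, ∑ b, ∑ c, f a b c :=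
    sum_congr rfl fun a _ => sum_comm
  have e2 : ∑ a, ∑ b, ∑ c, f b a c = ∑ a, ∑ b, ∑ c, f a b c := sum_comm
  have e3 : ∑ a, ∑ b, ∑ c, f b c a = ∑ a, ∑ b, ∑ c, f a b c := by
    calc ∑ a, ∑ b, ∑ c, f b c a = ∑ b, ∑ a, ∑ c, f b c a := sum_comm
      _ = _ := sum_congr rfl fun b _ => sum_comm
  have e4 : ∑ a, ∑ b, ∑ c, f c a b = ∑ a, ∑ b, ∑ c, f a b c := by
    calc ∑ a, ∑ b, ∑ c, f c a b = ∑ a, ∑ c, ∑ b, f c a b := sum_congr rfl fun a _ => sum_comm
      _ = _ := sum_comm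
  have e5 : ∑ a, ∑ b, ∑ c, f c b a = ∑ a, ∑ b, ∑ c, f a b c := by
    calc ∑ a, ∑ b, ∑ c, f c b a = ∑ a, ∑ c, ∑ b, f c b a := sum_congr rfl fun a _ => sum_comm
      _ = ∑ c, ∑ a, ∑ b, f c b a := sum_comm
      _ = _ := sum_congr rfl fun b _ => sum_comm
  simp only [S6, sum_add_distrib, e1, e2, e3, e4, e5]
  ring

theorem tpF : ∀ u < 3, ∀ v < 3, ∀ w < 3,
    tp (cd 1 0 1) (cd u v w) = cls (cj u) (cj v) (cj w) ∧
    tp (cd 2 0 2) (cd u v w) = cls (cj w) (cj v) (cj u) ∧
    tp (cd 1 2 0) (cd u v w) = cls (cj w) (cj u) (cj v) ∧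
    tp (cd 2 1 0) (cd u v w) = cls (cj v) (cj u) (cj w) ∧
    tp (cd 0 1 2) (cd u v w) = cls (cj u) (cj w) (cj v) ∧
    tp (cd 0 2 1) (cd u v w) = cls (cj v) (cj w) (cj u) := by
  decide +kernel

theorem tp8a : ∀ x < 3, ∀ y < 3, ∀ z < 3, ∀ i < 27,
    pc x y z = 0 → tp (cd x y z) i = 8 := by
  decide +kernel

theorem tp8 : ∀ x < 3, ∀ y < 3, ∀ z < 3, pc x y z = 0 → ∀ u < 3, ∀ v < 3, ∀ w < 3,
    tp (cd x y z) (cd u v w) = 8 := by
  intro x hx y hy z hz hp u hu v hv w hw
  refine tp8a x hx y hy z hz _ ?_ hp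
  show u + (3 * v + 9 * w) < 27
  omega

theorem g28 : ∀ c < 3, g2 8 8 c = 0 := by decide +kernel

theorem g2gn : ∀ k < 8, ∀ l < 8, ∀ c < 3,
    g2 k l c + 2 * 134690174 * 14407 = 52776558133248 + 134690174 * (gn k l c + gn l k (cj c)) := by
  decide +kernel

theorem cls_lt : ∀ x < 3, ∀ y < 3, ∀ z < 3, cls x y z < 8 := by decide +kernel

theorem ori_lt {V : Type} {r : V → V → ℕ} (h : Ori r) (x y : V) : r x y < 3 := by
  rcases h x y with ⟨h1, -⟩ | ⟨h1, -⟩ | ⟨h1, -⟩ <;> omega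

theorem ori_cj {V : Type} {r : V → V → ℕ} (h : Ori r) (x y : V) : r y x = cj (r x y) := by
  rcases h x y with ⟨h1, h2⟩ | ⟨h1, h2⟩ | ⟨h1, h2⟩ <;> rw [h1, h2] <;> rfl

theorem pc_S6 {V : Type} {r : V → V → ℕ} (h : Ori r) (x y z : V) :
    pc (r x y) (r x z) (r y z) = S6 (pth r) x y z := by
  unfold S6 pth pc
  rcases h x y with ⟨h1, h2⟩ | ⟨h1, h2⟩ | ⟨h1, h2⟩ <;>
  rcases h x z with ⟨h3, h4⟩ | ⟨h3, h4⟩ | ⟨h3, h4⟩ <;>
  rcases h y z with ⟨h5, h6⟩ | ⟨h5, h6⟩ | ⟨h5, h6⟩ <;>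
  simp only [h1, h2, h3, h4, h5, h6] <;> decide

theorem point {V : Type} {r : V → V → ℕ} (h : Ori r) (a b c d e : V) :
    FG r a b c d e + (2 * 134690174 * 14407) * S6 (pth r) a b c =
      52776558133248 * S6 (pth r) a b c + 134690174 * S6 (fun x y z => pth r x y z *
        (gn (qr r x y z d) (qr r x y z e) (r d e) + gn (qr r x y z e) (qr r x y z d) (r e d)))
        a b c := by
  have hde := ori_lt h d e
  have had := ori_lt h a d
  have hbd := ori_lt h b d
  have hcd := ori_lt h c d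
  have hae := ori_lt h a e
  have hbe := ori_lt h b e
  have hce := ori_lt h c e
  have hda := ori_lt h d a
  have hdb := ori_lt h d b
  have hdc := ori_lt h d c
  have hea := ori_lt h e a
  have heb := ori_lt h e b
  have hec := ori_lt h e c
  obtain ⟨t1, t2, t3, t4, t5, t6⟩ := tpF (r a d) had (r b d) hbd (r c d) hcd
  obtain ⟨s1, s2, s3, s4, s5, s6⟩ := tpF (r a e) hae (r b e) hbe (r c e) hce
  rw [← ori_cj h a d, ← ori_cj h b d, ← ori_cj h c d] at t1 t2 t3 t4 t5 t6
  rw [← ori_cj h a e, ← ori_cj h b e, ← ori_cj h c e] at s1 s2 s3 s4 s5 s6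
  have key : ∀ k l : ℕ, k < 8 → l < 8 →
      g2 k l (r d e) + 2 * 134690174 * 14407
        = 52776558133248 + 134690174 * (gn k l (r d e) + gn l k (r e d)) := by
    intro k l hk hl
    rw [ori_cj h d e]
    exact g2gn k hk l hl _ hde
  by_cases hp : pc (r a b) (r a c) (r b c) = 0
  · have h6 := pc_S6 h a b c
    rw [hp] at h6
    have h0 : FG r a b c d e = 0 := by
      unfold FG
      rw [tp8 _ (ori_lt h a b) _ (ori_lt h a c) _ (ori_lt h b c) hp _ had _ hbd _ hcd,
        tp8 _ (ori_lt h a b) _ (ori_lt h a c) _ (ori_lt h b c) hp _ hae _ hbe _ hce, g28 _ hde]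
    unfold S6 at h6
    have z1 : pth r a b c = 0 := by omega
    have z2 : pth r a c b = 0 := by omega
    have z3 : pth r b a c = 0 := by omega
    have z4 : pth r b c a = 0 := by omega
    have z5 : pth r c a b = 0 := by omega
    have z6 : pth r c b a = 0 := by omega
    simp only [S6, h0, z1, z2, z3, z4, z5, z6, Nat.zero_mul, Nat.mul_zero, Nat.add_zero]
  · have hcase : (r a b = 1 ∧ r a c = 2 ∧ r b c = 0) ∨ (r a b = 2 ∧ r a c = 1 ∧ r b c = 0) ∨
        (r a b = 1 ∧ r a c = 0 ∧ r b c = 1) ∨ (r a b = 2 ∧ r a c = 0 ∧ r b c = 2) ∨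
        (r a b = 0 ∧ r a c = 1 ∧ r b c = 2) ∨ (r a b = 0 ∧ r a c = 2 ∧ r b c = 1) := by
      by_contra hc
      exact hp (if_neg hc)
    have kk := ori_cj h a b
    have kk2 := ori_cj h a c
    have kk3 := ori_cj h b c
    rcases hcase with ⟨h1, h2, h3⟩ | ⟨h1, h2, h3⟩ | ⟨h1, h2, h3⟩ | ⟨h1, h2, h3⟩ | ⟨h1, h2, h3⟩ | ⟨h1, h2, h3⟩
    · rw [h1] at kk; rw [h2] at kk2; rw [h3] at kk3
      have z1 : pth r a b c = 0 := by simp [pth, h1, h2, h3]
      have z2 : pth r a c b = 0 := by simp [pth, h1, h2, h3]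
      have z3 : pth r b a c = 0 := by simp [pth, h1, h2, h3, kk, kk2, kk3]
      have z4 : pth r b c a = 0 := by simp [pth, h1, h2, h3, kk, kk2, kk3]
      have z5 : pth r c a b = 1 := by simp [pth, h1, h2, h3, kk, kk2, kk3, cj]
      have z6 : pth r c b a = 0 := by simp [pth, h1, h2, h3, kk, kk2, kk3, cj]
      simp only [S6, z1, z2, z3, z4, z5, z6, FG, h1, h2, h3, t3, s3, Nat.zero_mul, Nat.mul_zero, Nat.add_zero,
        Nat.zero_add, Nat.one_mul, Nat.mul_one]
      exact key _ _ (cls_lt _ hdc _ hda _ hdb) (cls_lt _ hec _ hea _ heb)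
    · rw [h1] at kk; rw [h2] at kk2; rw [h3] at kk3
      have z1 : pth r a b c = 0 := by simp [pth, h1, h2, h3, kk, kk2, kk3, cj]
      have z2 : pth r a c b = 0 := by simp [pth, h1, h2, h3, kk, kk2, kk3, cj]
      have z3 : pth r b a c = 1 := by simp [pth, h1, h2, h3, kk, kk2, kk3, cj]
      have z4 : pth r b c a = 0 := by simp [pth, h1, h2, h3, kk, kk2, kk3, cj]
      have z5 : pth r c a b = 0 := by simp [pth, h1, h2, h3, kk, kk2, kk3, cj]
      have z6 : pth r c b a = 0 := by simp [pth, h1, h2, h3, kk, kk2, kk3, cj]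
      simp only [S6, z1, z2, z3, z4, z5, z6, FG, h1, h2, h3, t4, s4, Nat.zero_mul, Nat.mul_zero, Nat.add_zero,
        Nat.zero_add, Nat.one_mul, Nat.mul_one]
      exact key _ _ (cls_lt _ hdb _ hda _ hdc) (cls_lt _ heb _ hea _ hec)
    · rw [h1] at kk; rw [h2] at kk2; rw [h3] at kk3
      have z1 : pth r a b c = 1 := by simp [pth, h1, h2, h3, kk, kk2, kk3, cj]
      have z2 : pth r a c b = 0 := by simp [pth, h1, h2, h3, kk, kk2, kk3, cj]
      have z3 : pth r b a c = 0 := by simp [pth, h1, h2, h3, kk, kk2, kk3, cj]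
      have z4 : pth r b c a = 0 := by simp [pth, h1, h2, h3, kk, kk2, kk3, cj]
      have z5 : pth r c a b = 0 := by simp [pth, h1, h2, h3, kk, kk2, kk3, cj]
      have z6 : pth r c b a = 0 := by simp [pth, h1, h2, h3, kk, kk2, kk3, cj]
      simp only [S6, z1, z2, z3, z4, z5, z6, FG, h1, h2, h3, t1, s1, Nat.zero_mul, Nat.mul_zero, Nat.add_zero,
        Nat.zero_add, Nat.one_mul, Nat.mul_one]
      exact key _ _ (cls_lt _ hda _ hdb _ hdc) (cls_lt _ hea _ heb _ hec)
    · rw [h1] at kk; rw [h2] at kk2; rw [h3] at kk3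
      have z1 : pth r a b c = 0 := by simp [pth, h1, h2, h3, kk, kk2, kk3, cj]
      have z2 : pth r a c b = 0 := by simp [pth, h1, h2, h3, kk, kk2, kk3, cj]
      have z3 : pth r b a c = 0 := by simp [pth, h1, h2, h3, kk, kk2, kk3, cj]
      have z4 : pth r b c a = 0 := by simp [pth, h1, h2, h3, kk, kk2, kk3, cj]
      have z5 : pth r c a b = 0 := by simp [pth, h1, h2, h3, kk, kk2, kk3, cj]
      have z6 : pth r c b a = 1 := by simp [pth, h1, h2, h3, kk, kk2, kk3, cj]
      simp only [S6, z1, z2, z3, z4, z5, z6, FG, h1, h2, h3, t2, s2, Nat.zero_mul, Nat.mul_zero, Nat.add_zero,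
        Nat.zero_add, Nat.one_mul, Nat.mul_one]
      exact key _ _ (cls_lt _ hdc _ hdb _ hda) (cls_lt _ hec _ heb _ hea)
    · rw [h1] at kk; rw [h2] at kk2; rw [h3] at kk3
      have z1 : pth r a b c = 0 := by simp [pth, h1, h2, h3, kk, kk2, kk3, cj]
      have z2 : pth r a c b = 1 := by simp [pth, h1, h2, h3, kk, kk2, kk3, cj]
      have z3 : pth r b a c = 0 := by simp [pth, h1, h2, h3, kk, kk2, kk3, cj]
      have z4 : pth r b c a = 0 := by simp [pth, h1, h2, h3, kk, kk2, kk3, cj]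
      have z5 : pth r c a b = 0 := by simp [pth, h1, h2, h3, kk, kk2, kk3, cj]
      have z6 : pth r c b a = 0 := by simp [pth, h1, h2, h3, kk, kk2, kk3, cj]
      simp only [S6, z1, z2, z3, z4, z5, z6, FG, h1, h2, h3, t5, s5, Nat.zero_mul, Nat.mul_zero, Nat.add_zero,
        Nat.zero_add, Nat.one_mul, Nat.mul_one]
      exact key _ _ (cls_lt _ hda _ hdc _ hdb) (cls_lt _ hea _ hec _ heb)
    · rw [h1] at kk; rw [h2] at kk2; rw [h3] at kk3
      have z1 : pth r a b c = 0 := by simp [pth, h1, h2, h3, kk, kk2, kk3, cj]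
      have z2 : pth r a c b = 0 := by simp [pth, h1, h2, h3, kk, kk2, kk3, cj]
      have z3 : pth r b a c = 0 := by simp [pth, h1, h2, h3, kk, kk2, kk3, cj]
      have z4 : pth r b c a = 1 := by simp [pth, h1, h2, h3, kk, kk2, kk3, cj]
      have z5 : pth r c a b = 0 := by simp [pth, h1, h2, h3, kk, kk2, kk3, cj]
      have z6 : pth r c b a = 0 := by simp [pth, h1, h2, h3, kk, kk2, kk3, cj]
      simp only [S6, z1, z2, z3, z4, z5, z6, FG, h1, h2, h3, t6, s6, Nat.zero_mul, Nat.mul_zero, Nat.add_zero,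
        Nat.zero_add, Nat.one_mul, Nat.mul_one]
      exact key _ _ (cls_lt _ hdb _ hdc _ hda) (cls_lt _ heb _ hec _ hea)

theorem sum_de {V : Type} [Fintype V] (r : V → V → ℕ) (x y z : V) :
    ∑ d, ∑ e, pth r x y z * (gn (qr r x y z d) (qr r x y z e) (r d e)
      + gn (qr r x y z e) (qr r x y z d) (r e d)) = 2 * (pth r x y z * GS r x y z) := by
  have h1 : ∑ d, ∑ e, gn (qr r x y z e) (qr r x y z d) (r e d) = GS r x y z := by
    rw [GS, sum_comm]
  have h2 : ∑ d, ∑ e, gn (qr r x y z d) (qr r x y z e) (r d e) = GS r x y z := rfl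
  simp only [← mul_sum, sum_add_distrib, h1, h2]
  ring

theorem t_FG : S_FG := by
  intro V _ _ r h
  refine ⟨?_, ?_⟩
  · rw [← sum_S6]
    exact sum_congr rfl fun x _ => sum_congr rfl fun y _ => sum_congr rfl fun z _ => pc_S6 h x y z
  · rw [conv]
    have hS : ∀ a b c : V, (∑ d, ∑ e, FG r a b c d e)
        + (2 * 134690174 * 14407) * (Fintype.card V ^ 2 * S6 (pth r) a b c) =
        52776558133248 * (Fintype.card V ^ 2 * S6 (pth r) a b c)
        + (2 * 134690174) * S6 (fun x y z => pth r x y z * GS r x y z) a b c := by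
      intro a b c
      have hs : ∑ d, ∑ e, (FG r a b c d e + (2 * 134690174 * 14407) * S6 (pth r) a b c) =
          ∑ d, ∑ e, (52776558133248 * S6 (pth r) a b c + 134690174 * S6 (fun x y z => pth r x y z *
        (gn (qr r x y z d) (qr r x y z e) (r d e) + gn (qr r x y z e) (qr r x y z d) (r e d)))
        a b c) :=
        sum_congr rfl fun d _ => sum_congr rfl fun e _ => point h a b c d e
      have h1 : ∑ d, ∑ e, (FG r a b c d e + (2 * 134690174 * 14407) * S6 (pth r) a b c)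
          = (∑ d, ∑ e, FG r a b c d e)
            + (2 * 134690174 * 14407) * (Fintype.card V ^ 2 * S6 (pth r) a b c) := by
        simp only [sum_add_distrib, sum_const, card_univ, smul_eq_mul]
        ring
      have h2 : ∑ d, ∑ e, S6 (fun x y z => pth r x y z *
        (gn (qr r x y z d) (qr r x y z e) (r d e) + gn (qr r x y z e) (qr r x y z d) (r e d)))
        a b c = 2 * S6 (fun x y z => pth r x y z * GS r x y z) a b c := by
        unfold S6
        simp only [sum_add_distrib (s := (univ : Finset V)), sum_de]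
        ring
      have h3 : ∑ d, ∑ e, (52776558133248 * S6 (pth r) a b c + 134690174 * S6 (fun x y z => pth r x y z *
        (gn (qr r x y z d) (qr r x y z e) (r d e) + gn (qr r x y z e) (qr r x y z d) (r e d)))
        a b c) = 52776558133248 * (Fintype.card V ^ 2 * S6 (pth r) a b c)
        + (2 * 134690174) * S6 (fun x y z => pth r x y z * GS r x y z) a b c := by
        rw [show (2 * 134690174) * S6 (fun x y z => pth r x y z * GS r x y z) a b c
          = 134690174 * (2 * S6 (fun x y z => pth r x y z * GS r x y z) a b c) by ring, ← h2]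
        simp only [sum_add_distrib, sum_const, card_univ, smul_eq_mul, ← mul_sum]
        ring
      rw [← h1, hs, h3]
    have hT : ∑ a, ∑ b, ∑ c, ((∑ d, ∑ e, FG r a b c d e)
        + (2 * 134690174 * 14407) * (Fintype.card V ^ 2 * S6 (pth r) a b c)) =
        ∑ a, ∑ b, ∑ c, (52776558133248 * (Fintype.card V ^ 2 * S6 (pth r) a b c)
        + (2 * 134690174) * S6 (fun x y z => pth r x y z * GS r x y z) a b c) :=
      sum_congr rfl fun a _ => sum_congr rfl fun b _ => sum_congr rfl fun c _ => hS a b c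
    simp only [sum_add_distrib, ← mul_sum, sum_S6] at hT
    linarith

end Pool.Agent.W599.P3
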